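import Pool.Agent.Y507.LS2.Stm

/-!
# Local smoothing (MP_ee74d2_an): volume of ellipsoids
-/

set_option autoImplicit false

open MeasureTheory Set

namespace Pool.Agent.Y195.LS2

open Pool.Agent.Y507.LS2

lemma vol_box {m : ℕ} (c l : Fin m → ℝ) (s : ℝ) (hs : 0 ≤ s) (hl : ∀ i, 0 < l i) :
    volume (Icc (fun i => c i - s * l i) (fun i => c i + s * l i)) =
      ENNReal.ofReal ((2 * s) ^ m * ∏ i, l i) := by
  rw [Real.volume_Icc_pi]
  have h1 : ∀ i, ENNReal.ofReal (c i + s * l i - (c i - s * l i)) =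
      ENNReal.ofReal ((2 * s) * l i) := by
    intro i
    congr 1
    ring
  rw [Finset.prod_congr rfl fun i _ => h1 i, ← ENNReal.ofReal_prod_of_nonneg]
  · rw [Finset.prod_mul_distrib, Finset.prod_const, Finset.card_univ, Fintype.card_fin]
  · intro i _
    have := hl i
    positivity

theorem thm : S_EVOL := by
  intro m hm
  have hm0 : (0 : ℝ) < m := by exact_mod_cast hm
  have hm1 : (1 : ℝ) ≤ m := by exact_mod_cast hm
  refine ⟨2 ^ m + (m : ℝ) ^ m, by positivity, ?_⟩
  intro c l hl
  have hL : 0 < ∏ i, l i := Finset.prod_pos fun i _ => hl i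
  refine ⟨?_, ?_⟩
  · have h1 : Icc (fun i => c i - (1 / (m : ℝ)) * l i) (fun i => c i + (1 / (m : ℝ)) * l i) ⊆
        ell c l := by
      intro y hy
      show ∑ i, ((y i - c i) / l i) ^ 2 ≤ 1
      have h2 : ∀ i, ((y i - c i) / l i) ^ 2 ≤ (1 / (m : ℝ)) ^ 2 := by
        intro i
        have h3 := hy.1 i
        have h4 := hy.2 i
        simp only at h3 h4
        have hli := hl i
        apply sq_le_sq'
        · rw [le_div_iff₀ hli]
          linarith
        · rw [div_le_iff₀ hli]
          linarith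
      calc ∑ i, ((y i - c i) / l i) ^ 2 ≤ ∑ _i : Fin m, (1 / (m : ℝ)) ^ 2 :=
            Finset.sum_le_sum fun i _ => h2 i
        _ = (m : ℝ) * (1 / (m : ℝ)) ^ 2 := by
            rw [Finset.sum_const, Finset.card_univ, Fintype.card_fin, nsmul_eq_mul]
        _ = 1 / (m : ℝ) := by field_simp
        _ ≤ 1 := by
            rw [div_le_one hm0]
            exact hm1
    have h2 := measure_mono (μ := volume) h1
    rw [vol_box c l (1 / (m : ℝ)) (by positivity) hl] at h2
    calc ENNReal.ofReal (∏ i, l i)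
        ≤ ENNReal.ofReal ((2 ^ m + (m : ℝ) ^ m) * ((2 * (1 / (m : ℝ))) ^ m * ∏ i, l i)) := by
          apply ENNReal.ofReal_le_ofReal
          rw [← mul_assoc]
          have h3 : (1 : ℝ) ≤ (2 ^ m + (m : ℝ) ^ m) * (2 * (1 / (m : ℝ))) ^ m := by
            have h4 : (m : ℝ) ^ m * (2 * (1 / (m : ℝ))) ^ m = 2 ^ m := by
              rw [← mul_pow]
              congr 1
              field_simp
            have h5 : (1 : ℝ) ≤ 2 ^ m := one_le_pow₀ (by norm_num)
            have h6 : (0 : ℝ) ≤ 2 ^ m * (2 * (1 / (m : ℝ))) ^ m := by positivity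
            rw [add_mul, h4]
            linarith
          calc ∏ i, l i = 1 * ∏ i, l i := (one_mul _).symm
            _ ≤ _ := mul_le_mul_of_nonneg_right h3 hL.le
      _ = ENNReal.ofReal (2 ^ m + (m : ℝ) ^ m) *
          ENNReal.ofReal ((2 * (1 / (m : ℝ))) ^ m * ∏ i, l i) :=
          ENNReal.ofReal_mul (by positivity)
      _ ≤ ENNReal.ofReal (2 ^ m + (m : ℝ) ^ m) * volume (ell c l) := by gcongr
  · have h1 : ell c l ⊆ Icc (fun i => c i - 1 * l i) (fun i => c i + 1 * l i) := by
      intro y hy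
      have hy' : ∑ i, ((y i - c i) / l i) ^ 2 ≤ 1 := hy
      have h2 : ∀ i, ((y i - c i) / l i) ^ 2 ≤ 1 := by
        intro i
        refine le_trans ?_ hy'
        exact Finset.single_le_sum (f := fun i => ((y i - c i) / l i) ^ 2)
          (fun j _ => sq_nonneg _) (Finset.mem_univ i)
      have h3 : ∀ i, |(y i - c i) / l i| ≤ 1 := by
        intro i
        exact (sq_le_one_iff_abs_le_one _).mp (h2 i)
      refine ⟨fun i => ?_, fun i => ?_⟩
      · have h4 := (abs_le.mp (h3 i)).1
        rw [le_div_iff₀ (hl i)] at h4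
        show c i - 1 * l i ≤ y i
        linarith
      · have h4 := (abs_le.mp (h3 i)).2
        rw [div_le_iff₀ (hl i)] at h4
        show y i ≤ c i + 1 * l i
        linarith
    refine (measure_mono h1).trans ?_
    rw [vol_box c l 1 zero_le_one hl]
    apply ENNReal.ofReal_le_ofReal
    rw [mul_one]
    apply mul_le_mul_of_nonneg_right _ hL.le
    have : (0 : ℝ) ≤ (m : ℝ) ^ m := by positivity
    linarith

end Pool.Agent.Y195.LS2
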